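import Pool.Graph.R_seed8.W559.Et.Stm6

/-! # The local ring of a maximal ideal of a subalgebra of finite type over an algebraically closed field -/

set_option autoImplicit false
set_option linter.style.haveILetI false

open IsLocalRing

namespace Pool.Agent.Helper18.SE

open Pool.Agent.W559.Et

variable {k L : Type} [Field k] [Field L] [Algebra k L]

variable (B : Subalgebra k L) (q : Ideal B) (hq : q.IsPrime)

theorem le_locR : B ≤ locR B q hq := fun x hx => ⟨⟨x, hx⟩, 1, fun h =>
  hq.ne_top ((Ideal.eq_top_iff_one q).2 h), by simp⟩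

theorem ne_zero_of_notMem {b : B} (hb : b ∉ q) : (b : L) ≠ 0 := by
  intro h
  apply hb
  have : b = 0 := Subtype.ext h
  rw [this]
  exact q.zero_mem

theorem inv_mem_locR {b : B} (hb : b ∉ q) : (b : L)⁻¹ ∈ locR B q hq :=
  ⟨1, b, hb, by rw [inv_mul_cancel₀ (ne_zero_of_notMem B q hb)]; rfl⟩

/-- the algebra structure -/
@[reducible] noncomputable def algLoc : Algebra B (locR B q hq) :=
  (Subalgebra.inclusion (le_locR B q hq)).toRingHom.toAlgebra

theorem isLoc : letI := algLoc B q hq
    haveI := hq
    IsLocalization.AtPrime (locR B q hq) q := by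
  letI := algLoc B q hq
  haveI := hq
  refine ⟨?_, ?_, ?_⟩
  · rintro ⟨b, hb⟩
    have hb' : b ∉ q := hb
    refine isUnit_iff_exists_inv.2 ⟨⟨(b : L)⁻¹, inv_mem_locR B q hq hb'⟩, ?_⟩
    apply Subtype.ext
    change (b : L) * (b : L)⁻¹ = 1
    exact mul_inv_cancel₀ (ne_zero_of_notMem B q hb')
  · rintro ⟨x, a, b, hb, h⟩
    exact ⟨⟨a, ⟨b, hb⟩⟩, Subtype.ext h⟩
  · intro x y h
    refine ⟨1, ?_⟩
    have : (x : L) = y := congrArg (fun z : locR B q hq => (z : L)) h
    rw [Subtype.ext this]

theorem tower : letI := algLoc B q hq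
    IsScalarTower k B (locR B q hq) := by
  letI := algLoc B q hq
  exact IsScalarTower.of_algebraMap_eq fun _ => rfl

theorem isLocal : IsLocalRing (locR B q hq) := by
  letI := algLoc B q hq
  haveI := hq
  haveI := isLoc B q hq
  exact IsLocalization.AtPrime.isLocalRing (locR B q hq) q

theorem smooth (h : Algebra.Smooth k B) : Algebra.FormallySmooth k (locR B q hq) := by
  letI := algLoc B q hq
  haveI := hq
  haveI := isLoc B q hq
  haveI := tower B q hq
  haveI : Algebra.FormallySmooth B (locR B q hq) := Algebra.FormallySmooth.of_isLocalization q.primeCompl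
  exact Algebra.FormallySmooth.comp k B (locR B q hq)

theorem ess (h : Algebra.FiniteType k B) : Algebra.EssFiniteType k (locR B q hq) := by
  letI := algLoc B q hq
  haveI := hq
  haveI := isLoc B q hq
  haveI := tower B q hq
  haveI : Algebra.EssFiniteType B (locR B q hq) := Algebra.EssFiniteType.of_isLocalization _ q.primeCompl
  exact Algebra.EssFiniteType.comp k B (locR B q hq)

/-- the residue field is `k` -/
theorem resid [IsAlgClosed k] (h : Algebra.FiniteType k B) (hm : q.IsMaximal) :
    haveI := isLocal B q hq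
    ∀ x : locR B q hq, ∃ c : k, x - algebraMap k _ c ∈ maximalIdeal (locR B q hq) := by
  haveI := isLocal B q hq
  letI := algLoc B q hq
  haveI := hq
  haveI := isLoc B q hq
  haveI := tower B q hq
  have hb : ∀ b : B, ∃ c : k, b - algebraMap k B c ∈ q := by
    intro b
    letI : Field (B ⧸ q) := Ideal.Quotient.field q
    haveI : Algebra.FiniteType k (B ⧸ q) := inferInstance
    haveI : Module.Finite k (B ⧸ q) := finite_of_finite_type_of_isJacobsonRing k (B ⧸ q)
    obtain ⟨c, hc⟩ := (IsAlgClosed.algebraMap_bijective_of_isIntegral (k := k) (K := B ⧸ q)).2 (Ideal.Quotient.mk q b)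
    refine ⟨c, ?_⟩
    rw [← Ideal.Quotient.eq_zero_iff_mem, map_sub, ← hc]
    exact sub_self _
  have hmem : ∀ b : B, b ∈ q → (⟨b, le_locR B q hq b.2⟩ : locR B q hq) ∈ maximalIdeal (locR B q hq) := by
    intro b hb
    exact (IsLocalization.AtPrime.to_map_mem_maximal_iff (locR B q hq) q b).2 hb
  rintro ⟨x, a, b, hb', hx⟩
  obtain ⟨c, hc⟩ := hb a
  obtain ⟨d, hd⟩ := hb b
  have hd0 : d ≠ 0 := by
    rintro rfl
    rw [map_zero, sub_zero] at hd
    exact hb' hd
  refine ⟨c / d, ?_⟩
  -- x - c/d = (a d - c b) / (b d)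
  have h1 : a * algebraMap k B d - algebraMap k B c * b ∈ q := by
    have : a * algebraMap k B d - algebraMap k B c * b =
        (a - algebraMap k B c) * algebraMap k B d - algebraMap k B c * (b - algebraMap k B d) := by ring
    rw [this]
    exact q.sub_mem (q.mul_mem_right _ hc) (q.mul_mem_left _ hd)
  have h2 := hmem _ h1
  have h3 : (⟨x, a, b, hb', hx⟩ : locR B q hq) - algebraMap k _ (c / d) =
      (⟨((a * algebraMap k B d - algebraMap k B c * b : B) : L), le_locR B q hq (Subtype.property _)⟩ : locR B q hq) *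
        (⟨(b : L)⁻¹, inv_mem_locR B q hq hb'⟩ * algebraMap k _ d⁻¹) := by
    apply Subtype.ext
    change x - algebraMap k L (c / d) = ((a : L) * algebraMap k L d - algebraMap k L c * (b : L)) *
      ((b : L)⁻¹ * algebraMap k L d⁻¹)
    have hbn := ne_zero_of_notMem B q hb'
    have hdn : algebraMap k L d ≠ 0 := (map_ne_zero _).2 hd0
    rw [← hx, map_div₀, map_inv₀]
    field_simp
  rw [h3]
  exact Ideal.mul_mem_right _ _ h2

end Pool.Agent.Helper18.SE
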